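import Mathlib
import Pool.Agent.Q234.CGAsym

set_option autoImplicit false

/-!
# Almost all labelled convex geometries are primitive
-/

namespace Pool.Agent.Results.MP_0c861e_co.Labelled

open Filter Topology Pool.Agent.Q234.CG

/-- The proportion of the primitive ones among the convex geometries on `{1, ..., n}` tends to
one. -/
theorem result : Tendsto (fun n : ℕ => (Lpr n : ℝ) / (L n : ℝ)) atTop (𝓝 1) := labelled

end Pool.Agent.Results.MP_0c861e_co.Labelled
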